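import Pool.Agent.H14R2.RD.R4

namespace RC14
open scoped InnerProductSpace
open Finset Filter Topology

/-- the middle levels -/
theorem MID4 (n j m0 ℓ F q R : ℕ) (hj : 2 * j + 2 ≤ n) (hm : m0 ≤ j) (hL : 2 * (3 * m0) ≤ ℓ)
    (hm5 : 16 ≤ m0) (hb : bb j m0 n F ≤ Real.exp (-3)) (hq : 2 ≤ q)
    (hd : (n : ℝ) ^ j < Real.exp (2 * m0 * (q : ℝ) ^ R / 16))
    (x : Fin 8 → Alt n) (hx : FewFix n ℓ F (fun i => (x i : Equiv.Perm (Fin n)))) :
    (Nat.card {z : Fin R → Fin q → Alt n // ¬ ∀ v ∈ Lvl j n,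
        1 * ‖v‖ ^ 2 ≤ E4 (repA j n) x z v} : ℝ) ≤
      Real.exp (3 * Real.sqrt j) * (R * Real.exp (-(2 * m0 * q / 64))) *
        (Fintype.card (Alt n) : ℝ) ^ (R * q) := by
  have h := UBG (repA j n) (Lvl j n) _ (TYPESLVL j n hj)
    (Z := Fin R → Fin q → Alt n) (fun z v => E4 (repA j n) x z v) (fun z => isEn_E4 _ _ _) 1
    (R * Real.exp (-(2 * m0 * q / 64)) * (Fintype.card (Alt n) : ℝ) ^ (R * q))
    (by positivity) ?_
  · refine h.trans ?_
    have := CONJS j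
    have h0 : 0 ≤ R * Real.exp (-(2 * m0 * q / 64)) *
      (Fintype.card (Alt n) : ℝ) ^ (R * q) := by positivity
    calc _ ≤ Real.exp (3 * Real.sqrt j) * (R * Real.exp (-(2 * m0 * q / 64)) *
        (Fintype.card (Alt n) : ℝ) ^ (R * q)) := mul_le_mul_of_nonneg_right this h0
      _ = _ := by ring
  · intro W hW hWL
    have hm0R : (32 : ℝ) ≤ 2 * m0 := by
      have : (16 : ℝ) ≤ m0 := by exact_mod_cast hm5
      linarith
    have hη := MIDTR n j m0 ℓ F hj hm hL x hx hb W hW hWL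
    have hnum := high_num m0 (by omega)
    have hdW : (Module.finrank ℂ W : ℝ) < Real.exp (2 * m0 * (q : ℝ) ^ R / 16) := by
      refine lt_of_le_of_lt ?_ hd
      exact_mod_cast finrank_le_pow W
    have h := AMP4X (repA j n) W hW x (3 * m0) ((1 / 4 : ℝ) ^ (3 * m0) + Real.exp (-(3 * m0)))
      hη q R hq (2 * m0) hm0R hnum hdW
    have h5 := card_mono (Z := Fin R → Fin q → Alt n)
      (fun z => ¬ ∀ v ∈ W, 1 * ‖v‖ ^ 2 ≤ E4 (repA j n) x z v)
      (fun z => ¬ ∀ v ∈ W, 1 * ‖v‖ ^ 2 ≤ 3 / 2 * En (repA j n) x v +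
          10 / (q : ℝ) * ∑ r, En (repA j n) (z r) v) (by
        intro z hz hcon
        apply hz
        intro v hv
        have h1 := hcon v hv
        have h2 : 0 ≤ En (repA j n) x v := RC14.En_nonneg _ _ _
        unfold E4
        linarith)
    exact (Nat.cast_le.mpr h5).trans h

end RC14
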