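import Pool.Agent.H14R2.RC.R3c
import Pool.Agent.H14R2.RD.R4b

namespace RC14
open scoped InnerProductSpace
open Finset Filter Topology

/-- the final count for fixed parameters -/
theorem R4Y (n j1 q R k : ℕ) (hk : k = (8 + R) * q) (hq : 0 < q) (hR : 1 ≤ R) (p1 p2 : ℝ)
    (hp2 : 0 ≤ p2)
    (h1 : (Nat.card {y : Fin k → Alt n // ¬ Good1 n j1 (q / 10 : ℝ) y} : ℝ) ≤
      p1 * (Fintype.card (Alt n) : ℝ) ^ k)
    (h2 : ∀ y : Fin k → Alt n, Good1 n j1 (q / 10 : ℝ) y →
      (Nat.card {z : Fin R → Fin q → Alt n // ¬ ∀ v ∈ HH j1 n,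
        1 * ‖v‖ ^ 2 ≤ 150 / (q : ℝ) * En (RR n) y v +
          10 / (q : ℝ) * ∑ r, En (RR n) (z r) v} : ℝ) ≤
        p2 * (Fintype.card (Alt n) : ℝ) ^ (R * q)) :
    (Nat.card {y : Fin (k + R * q) → Alt n // ¬ Expanding (1 / (3000 * (R : ℝ))) y} : ℝ) ≤
      (p1 + p2) * (Fintype.card (Alt n) : ℝ) ^ (k + R * q) := by
  have hq' : (0 : ℝ) < q := by exact_mod_cast hq
  have hR' : (1 : ℝ) ≤ R := by exact_mod_cast hR
  have hkc : (k : ℝ) = (8 + R) * q := by rw [hk]; push_cast; ring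
  have hcardZ : (Fintype.card (Fin R → Fin q → Alt n) : ℝ) =
      (Fintype.card (Alt n) : ℝ) ^ (R * q) := by
    simp only [Fintype.card_fun, Fintype.card_fin]
    push_cast
    rw [← pow_mul, mul_comm q R]
  have hcardX : (Fintype.card (Fin k → Alt n) : ℝ) = (Fintype.card (Alt n) : ℝ) ^ k := by
    simp only [Fintype.card_fun, Fintype.card_fin]
    push_cast
    rfl
  have e1 := card_equiv (comb k q R (A := Alt n))
    (fun p => ¬ Expanding (1 / (3000 * (R : ℝ))) (comb k q R p))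
    (fun y => ¬ Expanding (1 / (3000 * (R : ℝ))) y) (fun z => Iff.rfl)
  have e2 := card_mono (Z := (Fin k → Alt n) × (Fin R → Fin q → Alt n))
    (fun p => ¬ Expanding (1 / (3000 * (R : ℝ))) (comb k q R p))
    (fun p => ¬ (Good1 n j1 (q / 10 : ℝ) p.1 ∧ ∀ v ∈ HH j1 n,
        1 * ‖v‖ ^ 2 ≤ 150 / (q : ℝ) * En (RR n) p.1 v +
          10 / (q : ℝ) * ∑ r, En (RR n) (p.2 r) v)) (by
      intro p hp hg
      apply hp
      obtain ⟨g1, g2⟩ := hg
      have hkk : 1 ≤ k + R * q := by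
        have : 0 < R * q := by positivity
        omega
      have h3 := FRALL n j1 (k + R * q) hkk (comb k q R p) (q / 150 : ℝ) (by positivity)
        (fun j hj1 hj2 f hf => by
          rw [En_comb]
          have g3 := g1 j hj1 hj2 f hf
          have g4 : 0 ≤ ∑ r, En (repA j n) (p.2 r) f :=
            Finset.sum_nonneg fun r _ => RC14.En_nonneg _ _ _
          have g5 : (q / 150 : ℝ) * ‖f‖ ^ 2 ≤ (q / 10 : ℝ) * ‖f‖ ^ 2 := by
            gcongr
            norm_num
          linarith)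
        (fun f hf => by
          rw [En_comb]
          have g3 := g2 f hf
          have g4 : 0 ≤ ∑ r, En (RR n) (p.2 r) f :=
            Finset.sum_nonneg fun r _ => RC14.En_nonneg _ _ _
          have g6 : 10 / (q : ℝ) * ∑ r, En (RR n) (p.2 r) f ≤
              150 / (q : ℝ) * ∑ r, En (RR n) (p.2 r) f := by
            gcongr
            norm_num
          have g7 : 1 * ‖f‖ ^ 2 ≤ 150 / (q : ℝ) *
              (En (RR n) p.1 f + ∑ r, En (RR n) (p.2 r) f) := by
            rw [mul_add]; linarith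
          calc (q / 150 : ℝ) * ‖f‖ ^ 2 ≤ (q / 150 : ℝ) *
                (150 / (q : ℝ) * (En (RR n) p.1 f + ∑ r, En (RR n) (p.2 r) f)) := by
                gcongr
                linarith
            _ = En (RR n) p.1 f + ∑ r, En (RR n) (p.2 r) f := by
                field_simp)
      refine h3.mono ?_
      have hkc2 : ((k + R * q : ℕ) : ℝ) = (8 + 2 * R) * q := by
        push_cast
        rw [hkc]; ring
      rw [hkc2, div_div, div_le_div_iff₀ (by positivity) (by positivity)]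
      nlinarith [mul_le_mul_of_nonneg_left hR' hq'.le])
  have e3 := card_prod_bound (X := Fin k → Alt n) (Z := Fin R → Fin q → Alt n)
    (fun y => Good1 n j1 (q / 10 : ℝ) y)
    (fun y z => ¬ (Good1 n j1 (q / 10 : ℝ) y ∧ ∀ v ∈ HH j1 n,
        1 * ‖v‖ ^ 2 ≤ 150 / (q : ℝ) * En (RR n) y v +
          10 / (q : ℝ) * ∑ r, En (RR n) (z r) v)) p2 hp2 (fun y hy => by
      rw [hcardZ]
      refine le_trans ?_ (h2 y hy)
      exact Nat.cast_le.mpr (card_mono _ _ fun z hz hcon => hz ⟨hy, hcon⟩))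
  rw [← e1]
  refine (Nat.cast_le.mpr e2).trans (e3.trans ?_)
  rw [hcardX, hcardZ, pow_add]
  have hA : (0 : ℝ) ≤ (Fintype.card (Alt n) : ℝ) ^ (R * q) := by positivity
  have := mul_le_mul_of_nonneg_right h1 hA
  linarith

end RC14
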