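import Pool.Agent.H14R2.RD.S.TREE
import Pool.Agent.H14R2.RD.S.DISP
import Pool.Agent.H14R2.RC.Gen

namespace RC14
open scoped InnerProductSpace
open Finset

variable {G : Type*} [Group G] [Fintype G]
variable {V : Type*} [NormedAddCommGroup V] [InnerProductSpace ℂ V] [FiniteDimensional ℂ V]

/-- amplification by a tree of conjugates -/
theorem AMP4 (ρ : G →* (V ≃ₗᵢ[ℂ] V)) (hirr : Irr ρ ⊤) (T : Module.End ℂ V) (hT : T.IsSymmetric)
    (hT1 : ∀ v, (⟪T v, v⟫_ℂ).re ≤ ‖v‖ ^ 2) (θ : ℝ) (hθ : 0 < θ) (hθ1 : θ < 1) (L : ℕ) (η : ℝ)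
    (hη : rtr (T ^ (2 * L)) ≤ η * Module.finrank ℂ V) (q R : ℕ) (hq : 2 ≤ q)
    (Λ : ℝ) (hΛ : 32 ≤ Λ) (hηΛ : (1 / θ) ^ (2 * L) * η ≤ Real.exp (-Λ))
    (hd : (Module.finrank ℂ V : ℝ) < Real.exp (Λ * (q : ℝ) ^ R / 16)) :
    (Nat.card {z : Fin R → Fin q → G // ¬ ∀ v : V,
        ‖v‖ ^ 2 ≤ 3 / (1 - θ) * (‖v‖ ^ 2 - (⟪T v, v⟫_ℂ).re) +
          10 / q * ∑ r, En ρ (z r) v} : ℝ) ≤
      R * Real.exp (-(Λ * q / 64)) * (Fintype.card G : ℝ) ^ (R * q) := by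
  classical
  obtain ⟨E, hE, htr, hgap⟩ := SPEC T hT hT1 θ hθ hθ1
  have hτ : rtr E ≤ Real.exp (-Λ) * Module.finrank ℂ V := by
    have h1 := (htr L).trans hη
    have h2 : (1 / θ) ^ (2 * L) * (θ ^ (2 * L) * rtr E) = rtr E := by
      rw [← mul_assoc, ← mul_pow, one_div, inv_mul_cancel₀ hθ.ne', one_pow, one_mul]
    calc rtr E = (1 / θ) ^ (2 * L) * (θ ^ (2 * L) * rtr E) := h2.symm
      _ ≤ (1 / θ) ^ (2 * L) * (η * Module.finrank ℂ V) := by gcongr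
      _ = ((1 / θ) ^ (2 * L) * η) * Module.finrank ℂ V := by ring
      _ ≤ _ := by gcongr
  have h := TREE ρ hirr E hE q R hq Λ hΛ hτ hd
  refine le_trans ?_ h
  refine Nat.cast_le.mpr (card_mono _ _ fun z hz hcon => hz fun v => ?_)
  have h1 := hcon v
  have h2 := DISP ρ E hE q R (by omega) z v
  have h3 := hgap v
  have hq0 : (0 : ℝ) < q := by exact_mod_cast (by omega : 0 < q)
  have h4 : 0 ≤ ∑ r, En ρ (z r) v := Finset.sum_nonneg fun r _ => RC14.En_nonneg ρ _ v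
  have h5 : ‖v - E v‖ ^ 2 ≤ 1 / (1 - θ) * (‖v‖ ^ 2 - (⟪T v, v⟫_ℂ).re) := by
    rw [one_div, ← div_eq_inv_mul, le_div_iff₀ (by linarith)]
    linarith
  have h6 : 7 / 8 * ‖v‖ ^ 2 ≤ 2 * ‖v - E v‖ ^ 2 + 8 / (q : ℝ) * ∑ r, En ρ (z r) v := by
    linarith
  have h7 : 0 ≤ 1 / (1 - θ) * (‖v‖ ^ 2 - (⟪T v, v⟫_ℂ).re) := le_trans (by positivity) h5
  have h8 : 3 / (1 - θ) * (‖v‖ ^ 2 - (⟪T v, v⟫_ℂ).re) =
      3 * (1 / (1 - θ) * (‖v‖ ^ 2 - (⟪T v, v⟫_ℂ).re)) := by ring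
  have h9 : 10 / (q : ℝ) * ∑ r, En ρ (z r) v = 10 * (1 / (q : ℝ) * ∑ r, En ρ (z r) v) := by ring
  have h10 : 8 / (q : ℝ) * ∑ r, En ρ (z r) v = 8 * (1 / (q : ℝ) * ∑ r, En ρ (z r) v) := by ring
  have h11 : 0 ≤ 1 / (q : ℝ) * ∑ r, En ρ (z r) v := by positivity
  rw [h8, h9]
  rw [h10] at h6
  linarith

/-- `AMP4` for an invariant subspace with base operator `Tx` -/
theorem AMP4X (ρ : G →* (V ≃ₗᵢ[ℂ] V)) (W : Submodule ℂ V) (hW : Irr ρ W) (x : Fin 8 → G)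
    (L : ℕ) (η : ℝ) (hη : Rt ρ W hW.2.1 x (2 * L) ≤ η * Module.finrank ℂ W)
    (q R : ℕ) (hq : 2 ≤ q) (Λ : ℝ) (hΛ : 32 ≤ Λ)
    (hηΛ : (8 / 7 : ℝ) ^ (2 * L) * η ≤ Real.exp (-Λ))
    (hd : (Module.finrank ℂ W : ℝ) < Real.exp (Λ * (q : ℝ) ^ R / 16)) :
    (Nat.card {z : Fin R → Fin q → G // ¬ ∀ v ∈ W,
        1 * ‖v‖ ^ 2 ≤ 3 / 2 * En ρ x v + 10 / q * ∑ r, En ρ (z r) v} : ℝ) ≤
      R * Real.exp (-(Λ * q / 64)) * (Fintype.card G : ℝ) ^ (R * q) := by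
  have h := AMP4 (res ρ W hW.2.1) (AMP1.irr_res ρ W hW) (Tx (res ρ W hW.2.1) x)
    (AMP1.Tx_symm _ x) (fun v => by
      rw [AMP1.Tx_energy]
      have : 0 ≤ En (res ρ W hW.2.1) x v := RC14.En_nonneg _ _ _
      linarith) (7 / 8) (by norm_num) (by norm_num) L η hη q R hq Λ hΛ
      (by convert hηΛ using 3; norm_num) hd
  refine le_trans (le_of_eq ?_) h
  congr 3
  ext z
  have hEn : ∀ {ι : Type} [Fintype ι] (y : ι → G) (v : W),
      En (res ρ W hW.2.1) y v = En ρ y (v : V) := by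
    intro ι _ y v
    unfold En
    refine Finset.sum_congr rfl fun i _ => ?_
    rw [← res_apply ρ W hW.2.1 (y i) v, ← Submodule.coe_sub, Submodule.coe_norm]
  constructor
  · intro hh hcon
    apply hh
    intro v hv
    have := hcon ⟨v, hv⟩
    rw [AMP1.Tx_energy] at this
    simp only [hEn] at this
    rw [Submodule.coe_norm] at this
    simp only at this
    norm_num at this ⊢
    linarith
  · intro hh hcon
    apply hh
    intro v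
    have := hcon v v.2
    rw [AMP1.Tx_energy]
    simp only [hEn]
    rw [Submodule.coe_norm]
    norm_num at this ⊢
    linarith

/-- `AMP4` for an invariant subspace with base operator `TL` -/
theorem AMP4L (ρ : G →* (V ≃ₗᵢ[ℂ] V)) (W : Submodule ℂ V) (hW : Irr ρ W) (k : ℕ) (hk : 1 ≤ k)
    (y : Fin k → G) (ϑ : ℝ) (hϑ : 0 < ϑ) (hϑ1 : ϑ < 1)
    (L : ℕ) (η : ℝ) (hη : RtL ρ W hW.2.1 y (2 * L) ≤ η * Module.finrank ℂ W)
    (q R : ℕ) (hq : 2 ≤ q) (Λ : ℝ) (hΛ : 32 ≤ Λ)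
    (hηΛ : (1 / (1 - ϑ)) ^ (2 * L) * η ≤ Real.exp (-Λ))
    (hd : (Module.finrank ℂ W : ℝ) < Real.exp (Λ * (q : ℝ) ^ R / 16)) :
    (Nat.card {z : Fin R → Fin q → G // ¬ ∀ v ∈ W,
        1 * ‖v‖ ^ 2 ≤ 3 / (4 * ϑ * k) * En ρ y v + 10 / q * ∑ r, En ρ (z r) v} : ℝ) ≤
      R * Real.exp (-(Λ * q / 64)) * (Fintype.card G : ℝ) ^ (R * q) := by
  have hk' : (0 : ℝ) < k := by exact_mod_cast hk
  have h := AMP4 (res ρ W hW.2.1) (AMP1.irr_res ρ W hW) (TL (res ρ W hW.2.1) y)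
    (TL_symm _ y) (fun v => by
      have h1 := TL_energy (res ρ W hW.2.1) hk y v
      have : 0 ≤ En (res ρ W hW.2.1) y v := RC14.En_nonneg _ _ _
      have : 0 ≤ En (res ρ W hW.2.1) y v / (4 * k) := by positivity
      linarith) (1 - ϑ) (by linarith) (by linarith) L η hη q R hq Λ hΛ hηΛ hd
  refine le_trans (le_of_eq ?_) h
  congr 3
  ext z
  have hEn : ∀ {ι : Type} [Fintype ι] (y : ι → G) (v : W),
      En (res ρ W hW.2.1) y v = En ρ y (v : V) := by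
    intro ι _ y v
    unfold En
    refine Finset.sum_congr rfl fun i _ => ?_
    rw [← res_apply ρ W hW.2.1 (y i) v, ← Submodule.coe_sub, Submodule.coe_norm]
  have hc : ∀ e : ℝ, 3 / (1 - (1 - ϑ)) * (e / (4 * k)) = 3 / (4 * ϑ * k) * e := by
    intro e
    rw [show (1 : ℝ) - (1 - ϑ) = ϑ by ring]
    field_simp
  constructor
  · intro hh hcon
    apply hh
    intro v hv
    have := hcon ⟨v, hv⟩
    rw [TL_energy _ hk, hc] at this
    simp only [hEn] at this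
    rw [Submodule.coe_norm] at this
    simpa using this
  · intro hh hcon
    apply hh
    intro v
    have := hcon v v.2
    rw [TL_energy _ hk, hc]
    simp only [hEn]
    rw [Submodule.coe_norm]
    simpa using this

end RC14
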