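import Pool.Agent.H14R2.RC.Defs2
import Pool.Agent.H14R2.RC.S.HSL
import Pool.Agent.H14R2.RC.S.SPEC
import Pool.Agent.H14R2.RC.Util

/-!
Project RC3 (helper14), MP_75608d_al: definitions.  Exponentials of endomorphisms, averages of
conjugates, trees of conjugates.
-/

namespace RC14
open scoped InnerProductSpace
open Finset

noncomputable section

section
variable {V : Type*} [NormedAddCommGroup V] [InnerProductSpace ℂ V] [FiniteDimensional ℂ V]

/-- the exponential of an endomorphism -/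
def ex (A : Module.End ℂ V) : Module.End ℂ V :=
  (NormedSpace.exp (Module.End.toContinuousLinearMap V A) : V →L[ℂ] V).toLinearMap

end

section
variable {G : Type*} [Group G]
variable {V : Type*} [NormedAddCommGroup V] [InnerProductSpace ℂ V]

/-- average of the conjugates of `A` by the letters `z_i` and their inverses -/
def PS (ρ : G →* (V ≃ₗᵢ[ℂ] V)) {q : ℕ} (z : Fin q → G) (A : Module.End ℂ V) : Module.End ℂ V :=
  (1 / (2 * (q : ℂ))) • ∑ i, (cj ρ A (z i) + cj ρ A (z i)⁻¹)

/-- average of the letters `z_i` and their inverses -/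
def TQ (ρ : G →* (V ≃ₗᵢ[ℂ] V)) {q : ℕ} (z : Fin q → G) : Module.End ℂ V :=
  (1 / (2 * (q : ℂ))) • ∑ i, (op ρ (z i) + op ρ (z i)⁻¹)

/-- the tree of conjugates: `A_0 = E`, `A_{s+1} = PS(z_s)(PS(z_s)(A_s))` -/
def AA (ρ : G →* (V ≃ₗᵢ[ℂ] V)) {q : ℕ} (E : Module.End ℂ V) :
    (R : ℕ) → (Fin R → Fin q → G) → Module.End ℂ V
  | 0, _ => E
  | R + 1, z => PS ρ (z (Fin.last R)) (PS ρ (z (Fin.last R)) (AA ρ E R fun i => z i.castSucc))

end

end

end RC14
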