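import Pool.Agent.H14R2.RC.R3
import Pool.Agent.H14R2.RD.AMP4

namespace RC14
open scoped InnerProductSpace
open Finset Filter Topology

section
variable {G : Type*} [Group G]
variable {V : Type*} [NormedAddCommGroup V] [InnerProductSpace ℂ V]

/-- energy of one base group and all amplifying letters -/
noncomputable def E4 {q R : ℕ} (ρ : G →* (V ≃ₗᵢ[ℂ] V)) (x : Fin 8 → G) (z : Fin R → Fin q → G)
    (v : V) : ℝ := 2 * En ρ x v + 10 / (q : ℝ) * ∑ r, En ρ (z r) v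
end

lemma isEn_E4 {G : Type*} [Group G] [Fintype G]
    {V : Type*} [NormedAddCommGroup V] [InnerProductSpace ℂ V] [FiniteDimensional ℂ V]
    {q R : ℕ} (ρ : G →* (V ≃ₗᵢ[ℂ] V)) (x : Fin 8 → G) (z : Fin R → Fin q → G) :
    IsEn ρ (E4 ρ x z) :=
  ((IsEn.en ρ x).smul 2 (by norm_num)).add
    ((IsEn.sum Finset.univ (fun r => En ρ (z r)) fun r => IsEn.en ρ (z r)).smul
      (10 / (q : ℝ)) (by positivity))

/-- the low levels: one round suffices -/
theorem LOW4 (n j ℓ F q R L1 : ℕ) (b Λ : ℝ) (hj1 : 1 ≤ j) (hj : 2 * j + 2 ≤ n)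
    (hL : 2 * (j * L1) ≤ ℓ) (hb : bb j j n F ≤ b) (hb0 : 0 ≤ b)
    (hρ : (8 / 7 : ℝ) ^ (2 * L1) * ((1 / 4 : ℝ) ^ L1 + b) ≤ Real.exp (-Λ)) (hΛ : 70 ≤ Λ)
    (hq : 8 ≤ q) (hR : 1 ≤ R) (hd : (n : ℝ) < Real.exp (Λ * (q / 8 : ℝ)))
    (x : Fin 8 → Alt n) (hx : FewFix n ℓ F (fun i => (x i : Equiv.Perm (Fin n)))) :
    (Nat.card {z : Fin R → Fin q → Alt n // ¬ ∀ v ∈ Lvl j n,
        1 * ‖v‖ ^ 2 ≤ E4 (repA j n) x z v} : ℝ) ≤
      ((n : ℝ) * Real.exp (-(Λ * q / 8))) ^ j * (Fintype.card (Alt n) : ℝ) ^ (R * q) := by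
  classical
  have hj1' : (1 : ℝ) ≤ j := by exact_mod_cast hj1
  have hfr : Module.finrank ℂ (Lvl j n) ≤ n ^ j := finrank_le_pow _
  obtain ⟨N, W, hN, hW⟩ := DECOMP (repA j n) (Lvl j n) (Lvl_inv j n)
  have key : (8 / 7 : ℝ) ^ (2 * (j * L1)) * ((1 / 4 : ℝ) ^ (j * L1) + b ^ j) ≤
      Real.exp (-(j * Λ)) := by
    calc (8 / 7 : ℝ) ^ (2 * (j * L1)) * ((1 / 4 : ℝ) ^ (j * L1) + b ^ j)
        ≤ ((8 / 7 : ℝ) ^ (2 * L1) * ((1 / 4 : ℝ) ^ L1 + b)) ^ j := by
          rw [mul_pow, ← pow_mul, show 2 * (j * L1) = 2 * L1 * j by ring,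
            show j * L1 = L1 * j by ring, pow_mul (1 / 4 : ℝ) L1 j]
          gcongr
          exact pow_add_pow_le (by positivity) hb0 (by omega)
      _ ≤ Real.exp (-Λ) ^ j := pow_le_pow_left₀ (by positivity) hρ _
      _ = Real.exp (-(j * Λ)) := by rw [← Real.exp_nat_mul]; congr 1; ring
  set A : ℝ := (Fintype.card (Alt n) : ℝ) with hA
  have hA0 : 0 < A := by rw [hA]; exact_mod_cast Fintype.card_pos
  have h := UBG (repA j n) (Lvl j n) (n ^ j) ⟨N, W, hN.trans hfr, hW⟩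
    (Z := Fin R → Fin q → Alt n) (fun z v => E4 (repA j n) x z v) (fun z => isEn_E4 _ _ _) 1
    (Real.exp (-(j * Λ * q / 8)) * A ^ (R * q)) (by positivity) ?_
  · refine h.trans ?_
    have e1 : Real.exp (-(j * Λ * q / 8)) = Real.exp (-(Λ * q / 8)) ^ j := by
      rw [← Real.exp_nat_mul]; congr 1; ring
    rw [e1, mul_pow]
    push_cast
    apply le_of_eq
    ring
  · intro W hW hWL
    have hdW : (Module.finrank ℂ W : ℝ) < Real.exp (j * Λ * (q / 8 : ℝ) ^ 1) := by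
      calc (Module.finrank ℂ W : ℝ) ≤ (n : ℝ) ^ j := by exact_mod_cast finrank_le_pow W
        _ < Real.exp (Λ * (q / 8 : ℝ)) ^ j := pow_lt_pow_left₀ hd (by positivity) (by omega)
        _ = Real.exp (j * Λ * (q / 8 : ℝ) ^ 1) := by
            rw [← Real.exp_nat_mul]; congr 1; ring
    have h2 := AMP2SUB (repA j n) W hW x (j * L1) ((1 / 4 : ℝ) ^ (j * L1) + b ^ j)
      (LVLTR n j L1 ℓ F hj hL x hx b hb W hW hWL) q 1 hq (j * Λ) (by nlinarith) key hdW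
    -- transfer from `Fin 1` to one coordinate of `Fin R`
    have h3 : (Nat.card {z : Fin q → Alt n // ¬ ∀ v ∈ W,
        (1 / 4 : ℝ) * ‖v‖ ^ 2 ≤ 1 / 2 * En (repA j n) x v +
          1 / (q : ℝ) * En (repA j n) z v} : ℝ) ≤
        Real.exp (-(j * Λ * q / 8)) * Fintype.card (Fin q → Alt n) := by
      have e := card_equiv (Equiv.funUnique (Fin 1) (Fin q → Alt n))
        (fun z => ¬ ∀ v ∈ W, (1 / 4 : ℝ) ^ 1 * ‖v‖ ^ 2 ≤
          1 / 2 * En (repA j n) x v + 1 / (q : ℝ) * ∑ r, En (repA j n) (z r) v)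
        (fun z => ¬ ∀ v ∈ W, (1 / 4 : ℝ) * ‖v‖ ^ 2 ≤
          1 / 2 * En (repA j n) x v + 1 / (q : ℝ) * En (repA j n) z v) (fun z => by
            simp)
      rw [← e]
      refine h2.trans (le_of_eq ?_)
      rw [Fintype.card_fun, Fintype.card_fin]
      push_cast
      ring
    have h4 := coord_bound (X := Fin q → Alt n) (fun z => ∀ v ∈ W,
        (1 / 4 : ℝ) * ‖v‖ ^ 2 ≤ 1 / 2 * En (repA j n) x v +
          1 / (q : ℝ) * En (repA j n) z v) R ⟨0, hR⟩ _ h3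
    have h5 := card_mono (Z := Fin R → Fin q → Alt n)
      (fun z => ¬ ∀ v ∈ W, 1 * ‖v‖ ^ 2 ≤ E4 (repA j n) x z v)
      (fun z => ¬ ∀ v ∈ W, (1 / 4 : ℝ) * ‖v‖ ^ 2 ≤ 1 / 2 * En (repA j n) x v +
          1 / (q : ℝ) * En (repA j n) (z ⟨0, hR⟩) v) (by
        intro z hz hcon
        apply hz
        intro v hv
        have h6 := hcon v hv
        have h7 : En (repA j n) (z ⟨0, hR⟩) v ≤ ∑ r, En (repA j n) (z r) v :=
          Finset.single_le_sum (f := fun r => En (repA j n) (z r) v)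
            (fun r _ => RC14.En_nonneg (repA j n) (z r) v) (Finset.mem_univ _)
        have h8 : 0 ≤ En (repA j n) x v := RC14.En_nonneg _ _ _
        have h9 : 0 ≤ En (repA j n) (z ⟨0, hR⟩) v := RC14.En_nonneg _ _ _
        have hq0 : (0 : ℝ) < q := by exact_mod_cast (by omega : 0 < q)
        have h10 : 4 / (q : ℝ) ≤ 10 / q := by
          apply div_le_div_of_nonneg_right _ hq0.le
          norm_num
        have h11 : 4 / (q : ℝ) * En (repA j n) (z ⟨0, hR⟩) v ≤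
            10 / q * ∑ r, En (repA j n) (z r) v := by
          apply mul_le_mul h10 h7 h9 (by positivity)
        have h12 : 4 / (q : ℝ) * En (repA j n) (z ⟨0, hR⟩) v =
            4 * (1 / (q : ℝ) * En (repA j n) (z ⟨0, hR⟩) v) := by ring
        unfold E4
        linarith)
    refine (Nat.cast_le.mpr h5).trans (h4.trans (le_of_eq ?_))
    rw [Fintype.card_fun, Fintype.card_fin]
    push_cast
    rw [← hA, ← pow_mul, mul_comm q R]

end RC14
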