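import Pool.Agent.H14R2.RC.R3e
import Pool.Agent.H14R2.RD.R4c

namespace RC14
open scoped InnerProductSpace
open Finset Filter Topology

/-- number of letters per group -/
noncomputable def qz (n R : ℕ) : ℕ := ⌈(n : ℝ) ^ (1 / (R : ℝ)) + 10 ^ 9⌉₊

lemma jj_log4 : ∀ᶠ n : ℕ in atTop, 20 * Real.log n + 100 ≤ jj n := by
  filter_upwards [ev_log 0 (1 / 2) (4000000 * 20) (by norm_num),
    ev_const (1 / 2) (4000000 * 102) (by norm_num), ev_loggt 0] with n h1 h2 h3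
  rw [Real.rpow_zero, mul_one] at h1
  have := jj_ge n
  linarith

/-- properties of `q = qz n R` -/
lemma qz_ge (n R : ℕ) (hn : 1 ≤ n) :
    (n : ℝ) ^ (1 / (R : ℝ)) ≤ qz n R ∧ (10 : ℝ) ^ 9 ≤ qz n R := by
  have hn' : (1 : ℝ) ≤ n := by exact_mod_cast hn
  have hp : (0 : ℝ) ≤ (n : ℝ) ^ (1 / (R : ℝ)) := by positivity
  have h : (n : ℝ) ^ (1 / (R : ℝ)) + 10 ^ 9 ≤ qz n R := Nat.le_ceil _
  constructor <;> linarith

lemma qz_pow (n R : ℕ) (hR : 1 ≤ R) (hn : 1 ≤ n) : (n : ℝ) ≤ (qz n R : ℝ) ^ R := by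
  have hn' : (0 : ℝ) ≤ n := by positivity
  have h := (qz_ge n R hn).1
  calc (n : ℝ) = ((n : ℝ) ^ (1 / (R : ℝ))) ^ R := by
        rw [← Real.rpow_natCast, ← Real.rpow_mul hn']
        have : (R : ℝ) ≠ 0 := by exact_mod_cast (by omega : R ≠ 0)
        rw [one_div_mul_cancel this, Real.rpow_one]
    _ ≤ _ := pow_le_pow_left₀ (by positivity) h _

lemma qz_le (n R : ℕ) (hn : 1 ≤ n) :
    (qz n R : ℝ) ≤ (10 ^ 9 + 2) * (n : ℝ) ^ (1 / (R : ℝ)) := by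
  have hn' : (1 : ℝ) ≤ n := by exact_mod_cast hn
  have hp : (1 : ℝ) ≤ (n : ℝ) ^ (1 / (R : ℝ)) := Real.one_le_rpow hn' (by positivity)
  have h : (qz n R : ℝ) < (n : ℝ) ^ (1 / (R : ℝ)) + 10 ^ 9 + 1 :=
    Nat.ceil_lt_add_one (by positivity)
  nlinarith

lemma qz_le_cube : ∀ᶠ n : ℕ in atTop, ∀ R : ℕ, 1 ≤ R → (qz n R : ℝ) ≤ (n : ℝ) ^ 3 := by
  filter_upwards [eventually_ge_atTop (10 ^ 9 + 2)] with n hn R h1
  have hn1 : 1 ≤ n := by omega
  have hn' : (10 ^ 9 + 2 : ℝ) ≤ n := by exact_mod_cast hn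
  have hR' : (1 : ℝ) ≤ R := by exact_mod_cast h1
  have h3 := qz_le n R hn1
  have h4 : (n : ℝ) ^ (1 / (R : ℝ)) ≤ n := by
    calc (n : ℝ) ^ (1 / (R : ℝ)) ≤ (n : ℝ) ^ (1 : ℝ) :=
          Real.rpow_le_rpow_of_exponent_le (by linarith) (by
            rw [div_le_one (by linarith)]; exact hR')
      _ = n := Real.rpow_one _
  have h5 : (1 : ℝ) ≤ n := by linarith
  calc (qz n R : ℝ) ≤ (10 ^ 9 + 2) * (n : ℝ) ^ (1 / (R : ℝ)) := h3
    _ ≤ n * n := by gcongr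
    _ ≤ n * n * n := by nlinarith
    _ = (n : ℝ) ^ 3 := by ring

lemma mid4 : ∀ᶠ n : ℕ in atTop, ∀ (q R : ℕ), R ≤ ⌈Real.log n⌉₊ →
    (10 : ℝ) ^ 7 ≤ (q : ℝ) / 64 → (q : ℝ) ≤ (n : ℝ) ^ 3 →
      (q : ℝ) * (jj n * (Real.exp (3 * Real.sqrt (jj n)) *
        (R * Real.exp (-(2 * mm (1 / 24) n * q / 64))))) ≤ 1 / n := by
  filter_upwards [ev_log 0 (7 / 24) 24 (by norm_num), ev_le (1 / 4) (7 / 24) 12 (by norm_num),
    eventually_ge_atTop 4, mm_ge (1 / 24) (by norm_num)] with n h1 h2 h3 h4 q R hRl hq hqC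
  have hn : (4 : ℝ) ≤ n := by exact_mod_cast h3
  have hn0 : (0 : ℝ) < n := by linarith
  have hlog : 0 < Real.log n := Real.log_pos (by linarith)
  rw [Real.rpow_zero, mul_one] at h1
  norm_num at h4
  have hRn : (R : ℝ) ≤ n := by
    have : Real.log n ≤ n - 1 := Real.log_le_sub_one_of_pos (by linarith)
    have h6 : ⌈Real.log n⌉₊ ≤ n := by
      apply Nat.ceil_le.mpr
      linarith
    exact_mod_cast hRl.trans h6
  have hjn : (jj n : ℝ) ≤ n := by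
    have h5 : jj n ≤ Nat.sqrt n := Nat.div_le_self _ _
    exact_mod_cast h5.trans (Nat.sqrt_le_self n)
  have hsq : Real.sqrt (jj n) ≤ (n : ℝ) ^ (1 / 4 : ℝ) := by
    rw [Real.sqrt_le_left (by positivity)]
    have h5 := jj_le n
    have h6 : ((n : ℝ) ^ (1 / 4 : ℝ)) ^ 2 = (n : ℝ) ^ (1 / 2 : ℝ) := by
      rw [← Real.rpow_natCast, ← Real.rpow_mul hn0.le]; norm_num
    rw [h6]
    have h7 : (0 : ℝ) ≤ (n : ℝ) ^ (1 / 2 : ℝ) := by positivity
    linarith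
  have hexp : (2 * mm (1 / 24) n * q / 64 : ℝ) ≥ (n : ℝ) ^ (7 / 24 : ℝ) := by
    have h5 : (2 * mm (1 / 24) n * q / 64 : ℝ) =
        2 * mm (1 / 24) n * ((q : ℝ) / 64) := by ring
    rw [h5]
    have h6 : (0 : ℝ) ≤ 2 * mm (1 / 24) n := by positivity
    have h7 : (2 * mm (1 / 24) n : ℝ) * 1 ≤ 2 * mm (1 / 24) n * ((q : ℝ) / 64) := by
      apply mul_le_mul_of_nonneg_left _ h6
      linarith
    linarith
  have hpn : ∀ i : ℕ, (n : ℝ) ^ i = Real.exp (i * Real.log n) := by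
    intro i
    rw [Real.exp_nat_mul, Real.exp_log hn0]
  calc (q : ℝ) * (jj n * (Real.exp (3 * Real.sqrt (jj n)) *
        (R * Real.exp (-(2 * mm (1 / 24) n * q / 64)))))
      ≤ (n : ℝ) ^ 3 * (n * (Real.exp (3 * (n : ℝ) ^ (1 / 4 : ℝ)) *
        (n * Real.exp (-((n : ℝ) ^ (7 / 24 : ℝ)))))) := by
        gcongr
    _ = (n : ℝ) ^ 5 * (Real.exp (3 * (n : ℝ) ^ (1 / 4 : ℝ)) *
        Real.exp (-((n : ℝ) ^ (7 / 24 : ℝ)))) := by ring
    _ = Real.exp (((5 : ℕ) : ℝ) * Real.log n + (3 * (n : ℝ) ^ (1 / 4 : ℝ) +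
        -((n : ℝ) ^ (7 / 24 : ℝ)))) := by
        rw [hpn 5, ← Real.exp_add, ← Real.exp_add]
    _ ≤ Real.exp (-Real.log n) := by
        apply Real.exp_le_exp.mpr
        push_cast
        linarith
    _ = 1 / n := by rw [Real.exp_neg, Real.exp_log hn0, one_div]

lemma high4 : ∀ᶠ n : ℕ in atTop, ∀ (q R : ℕ), R ≤ ⌈Real.log n⌉₊ →
    (10 : ℝ) ^ 7 ≤ (q : ℝ) / 64 →
      2 * Real.exp (3 * Real.sqrt n) * (R * Real.exp (-(jj n * q / 64))) ≤ 1 / n := by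
  filter_upwards [ev_log 0 (1 / 2) 6 (by norm_num), ev_const (1 / 2) (10 ^ 8) (by norm_num),
    eventually_ge_atTop 4] with n h1 h2 h3 q R hRl hq
  have hn : (4 : ℝ) ≤ n := by exact_mod_cast h3
  have hn0 : (0 : ℝ) < n := by linarith
  have hlog : 0 < Real.log n := Real.log_pos (by linarith)
  rw [Real.rpow_zero, mul_one] at h1
  have hRn : (R : ℝ) ≤ n := by
    have : Real.log n ≤ n - 1 := Real.log_le_sub_one_of_pos (by linarith)
    have h6 : ⌈Real.log n⌉₊ ≤ n := by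
      apply Nat.ceil_le.mpr
      linarith
    exact_mod_cast hRl.trans h6
  set s : ℝ := (n : ℝ) ^ (1 / 2 : ℝ) with hs
  have hsq : Real.sqrt n = s := by rw [hs, Real.sqrt_eq_rpow]
  have h5 := jj_ge n
  rw [← hs] at h5
  have hexp : (jj n * q / 64 : ℝ) ≥ 5 * s - 2 * 10 ^ 7 := by
    have h6 : (jj n * q / 64 : ℝ) = jj n * ((q : ℝ) / 64) := by ring
    rw [h6]
    have h7 : (jj n : ℝ) * 10 ^ 7 ≤ jj n * ((q : ℝ) / 64) := by gcongr
    nlinarith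
  have h2n : (2 : ℝ) ≤ n := by linarith
  calc 2 * Real.exp (3 * Real.sqrt n) * (R * Real.exp (-(jj n * q / 64)))
      ≤ n * Real.exp (3 * s) * (n * Real.exp (-(5 * s - 2 * 10 ^ 7))) := by
        rw [hsq]
        gcongr
    _ = (Real.exp (Real.log n) * Real.exp (Real.log n)) *
        (Real.exp (3 * s) * Real.exp (-(5 * s - 2 * 10 ^ 7))) := by
        rw [Real.exp_log hn0]; ring
    _ = Real.exp (Real.log n + Real.log n + (3 * s + -(5 * s - 2 * 10 ^ 7))) := by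
        rw [← Real.exp_add, ← Real.exp_add, ← Real.exp_add]
    _ ≤ Real.exp (-Real.log n) := by
        apply Real.exp_le_exp.mpr
        linarith
    _ = 1 / n := by rw [Real.exp_neg, Real.exp_log hn0, one_div]

end RC14
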