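import Pool.Agent.H14R2.RD.R4e

namespace RC14
open Finset Filter Topology

/-- the uniform count -/
theorem R4uni : ∀ᶠ n : ℕ in atTop, ∀ R k : ℕ, 1 ≤ R →
    4 * 10 ^ 10 * (R : ℝ) * (n : ℝ) ^ (1 / (R : ℝ)) ≤ k →
    (Nat.card {x : Fin k → Alt n // ¬ Expanding (1 / 12000 / (R : ℝ)) x} : ℝ) ≤
      8 / (n : ℝ) * (Fintype.card (Alt n) : ℝ) ^ k := by
  filter_upwards [R4core, eventually_ge_atTop 3] with n h2 hn3 R k hR hkn
  have hn : (3 : ℝ) ≤ n := by exact_mod_cast hn3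
  have hn0 : (0 : ℝ) < n := by linarith
  have hA : (0 : ℝ) < (Fintype.card (Alt n) : ℝ) := by exact_mod_cast Fintype.card_pos
  have hlog : 1 ≤ Real.log n := by
    rw [Real.le_log_iff_exp_le hn0]
    linarith [Real.exp_one_lt_d9]
  set R' : ℕ := min R ⌈Real.log n⌉₊ with hR'
  have hc1 : 1 ≤ ⌈Real.log n⌉₊ := by
    have : 0 < ⌈Real.log n⌉₊ := Nat.ceil_pos.mpr (by linarith)
    omega
  have hR1 : 1 ≤ R' := le_min hR hc1
  have hR2 : R' ≤ ⌈Real.log n⌉₊ := min_le_right _ _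
  have hR3 : R' ≤ R := min_le_left _ _
  have hR1' : (1 : ℝ) ≤ R' := by exact_mod_cast hR1
  have hR3' : (R' : ℝ) ≤ R := by exact_mod_cast hR3
  have hRn : (1 : ℝ) ≤ R := by exact_mod_cast hR
  have hpow : (n : ℝ) ^ (1 / (R' : ℝ)) ≤ 3 * (n : ℝ) ^ (1 / (R : ℝ)) := by
    have hone : (1 : ℝ) ≤ (n : ℝ) ^ (1 / (R : ℝ)) :=
      Real.one_le_rpow (by linarith) (by positivity)
    rcases le_total R ⌈Real.log n⌉₊ with h | h
    · have : R' = R := by rw [hR']; exact min_eq_left h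
      rw [this]
      linarith
    · have : R' = ⌈Real.log n⌉₊ := by rw [hR']; exact min_eq_right h
      have h4 : (n : ℝ) ^ (1 / (R' : ℝ)) ≤ Real.exp 1 := by
        rw [Real.rpow_def_of_pos hn0]
        apply Real.exp_le_exp.mpr
        rw [mul_one_div, div_le_one (by linarith), this]
        exact Nat.le_ceil _
      linarith [Real.exp_one_lt_d9]
  set q : ℕ := qz n R' with hq
  have hk0 : ((8 + R') * q + R' * q : ℕ) ≤ k := by
    have h4 := qz_le n R' (by omega)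
    rw [← hq] at h4
    have h5 : (((8 + R') * q + R' * q : ℕ) : ℝ) ≤ k := by
      push_cast
      have hpp : 0 ≤ (n : ℝ) ^ (1 / (R : ℝ)) := by positivity
      calc ((8 + R') * q + R' * q : ℝ) = (8 + 2 * R') * q := by ring
        _ ≤ (10 * R') * ((10 ^ 9 + 2) * (n : ℝ) ^ (1 / (R' : ℝ))) := by
            gcongr
            linarith
        _ ≤ (10 * R') * ((10 ^ 9 + 2) * (3 * (n : ℝ) ^ (1 / (R : ℝ)))) := by
            gcongr
        _ = 30000000060 * ((R' : ℝ) * (n : ℝ) ^ (1 / (R : ℝ))) := by ring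
        _ ≤ 30000000060 * ((R : ℝ) * (n : ℝ) ^ (1 / (R : ℝ))) := by gcongr
        _ ≤ 4 * 10 ^ 10 * (R : ℝ) * (n : ℝ) ^ (1 / (R : ℝ)) := by
            have : 0 ≤ (R : ℝ) * (n : ℝ) ^ (1 / (R : ℝ)) := by positivity
            nlinarith
        _ ≤ k := hkn
    exact_mod_cast h5
  have hq0 : 0 < q := by
    have h8 := (qz_ge n R' (by omega)).2
    rw [← hq] at h8
    have h9 : 10 ^ 9 ≤ q := by exact_mod_cast h8
    omega
  have h6 := BLOCKS ((8 + R') * q + R' * q) k (by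
      have : 0 < R' * q := Nat.mul_pos (by omega) hq0
      omega) hk0 (1 / (3000 * (R' : ℝ))) (4 / n) (by positivity) (by positivity)
    (h2 R' hR1 hR2)
  have h7 : (Nat.card {x : Fin k → Alt n //
      ¬ Expanding (1 / 12000 / (R : ℝ)) x} : ℝ) ≤
      2 * (4 / (n : ℝ)) * (Fintype.card (Alt n) : ℝ) ^ k := by
    refine le_trans ?_ h6
    refine Nat.cast_le.mpr (card_mono _ _ fun x hx hcon => hx (hcon.mono ?_))
    rw [div_div, div_div, show 3000 * (R' : ℝ) * 4 = 12000 * (R' : ℝ) by ring]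
    apply one_div_le_one_div_of_le (by positivity)
    gcongr
  have e : (8 : ℝ) / n = 2 * (4 / n) := by ring
  rw [e]
  exact h7

end RC14
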